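import Pool.Agent.NH4.SB.Red

/-!
The bound for the order of vanishing by a weighted sum of traces, for rational coefficients.
-/

set_option autoImplicit false
set_option linter.all false
set_option maxHeartbeats 1000000

open Polynomial Finset

namespace Pool.Agent.NH4.SB

open Pool.Agent.TH180.RT
open Pool.Agent.H341R2.Sharp (Irr mem_Irr)

variable {k : Type} [Field k] [Fintype k] [DecidableEq k]

/-- the trace at a cusp -/
theorem trP_zero (h6 : (6 : k) ≠ 0) {P : k[X]} (hP : Irreducible P) {A B : k[X]} (hA : P ∣ A)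
    (hB : P ∣ B) : trP A B P = 0 := by
  rw [trP_congr (A' := 0) (B' := 0) (by rwa [sub_zero]) (by rwa [sub_zero])]
  obtain ⟨l, hl, h⟩ := exists_chi h6 hP false
  have h1 := trP_twist h6 hP hl 0 0
  rw [mul_zero, mul_zero, h l (by rw [sub_self]; exact dvd_zero _)] at h1
  simp only [Bool.false_eq_true, if_false] at h1
  linarith

theorem chi_sq {P z : k[X]} (hP : Irreducible P) (hz : ¬ P ∣ z) : chi (z ^ 2) P = 1 := by
  classical
  unfold chi
  rw [dif_pos hP]
  have : Fact (Irreducible P) := ⟨hP⟩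
  have := finAR hP.ne_zero
  let _ : Fintype (AdjoinRoot P) := Fintype.ofFinite _
  rw [map_pow]
  exact quadraticChar_sq_one' (by
    rw [Ne, AdjoinRoot.mk_eq_zero]
    exact hz)

theorem trP_scale (h6 : (6 : k) ≠ 0) {P z : k[X]} (hP : Irreducible P) (hz : ¬ P ∣ z)
    (A B : k[X]) : trP (z ^ 4 * A) (z ^ 6 * B) P = trP A B P := by
  have hz2 : ¬ P ∣ z ^ 2 := fun h => hz (hP.prime.dvd_of_dvd_pow h)
  have h1 := trP_twist h6 hP hz2 A B
  rw [chi_sq hP hz, one_mul, ← pow_mul, ← pow_mul] at h1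
  exact h1

theorem q_ge_five (h6 : (6 : k) ≠ 0) : 5 ≤ Nat.card k := by
  have h2 := n2 h6
  have h3 := n3 h6
  by_contra hlt
  push Not at hlt
  have hc : (Nat.card k : k) = 0 := by
    rw [Nat.card_eq_fintype_card]
    exact Nat.cast_card_eq_zero k
  have h1 : 1 < Nat.card k := Finite.one_lt_card
  interval_cases h : Nat.card k
  · exact h2 (by exact_mod_cast hc)
  · exact h3 (by exact_mod_cast hc)
  · apply h2
    have h4 : (2 : k) * 2 = 0 := by
      have : ((4 : ℕ) : k) = 0 := hc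
      push_cast at this
      rw [← this]
      norm_num
    exact (mul_eq_zero.1 h4).elim id id

theorem sqrt_ge_two (h6 : (6 : k) ≠ 0) {m : ℕ} (hm : 0 < m) : (2 : ℝ) ≤ √(Nat.card k : ℝ) ^ m := by
  have h1 : (5 : ℝ) ≤ Nat.card k := by exact_mod_cast q_ge_five h6
  have h2 : (2 : ℝ) ≤ √(Nat.card k : ℝ) := by
    apply Real.le_sqrt_of_sq_le
    linarith
  calc (2 : ℝ) ≤ √(Nat.card k : ℝ) := h2
    _ = √(Nat.card k : ℝ) ^ 1 := (pow_one _).symm
    _ ≤ √(Nat.card k : ℝ) ^ m := pow_le_pow_right₀ (by linarith) hm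

theorem wt_bound {Y : ℕ} (hY : 0 < Y) {P : k[X]} (hP : P.natDegree ≤ Y) :
    |wt k Y P| ≤ 2 / (Y : ℝ) * P.natDegree / (Nat.card k : ℝ) ^ P.natDegree := by
  have hY' : (0 : ℝ) < Y := by exact_mod_cast hY
  have hq := q_pos (k := k)
  unfold wt
  have h0 : (0 : ℝ) ≤ P.natDegree := Nat.cast_nonneg _
  have h2 : (P.natDegree : ℝ) ≤ Y := by exact_mod_cast hP
  rw [abs_neg, abs_of_nonneg]
  · apply div_le_div_of_nonneg_right _ (by positivity)
    apply mul_le_mul_of_nonneg_right _ h0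
    have : ((Y : ℝ) - P.natDegree) ≤ Y := by linarith
    calc 2 / (Y : ℝ) ^ 2 * ((Y : ℝ) - P.natDegree) ≤ 2 / (Y : ℝ) ^ 2 * Y :=
          mul_le_mul_of_nonneg_left this (by positivity)
      _ = 2 / (Y : ℝ) := by field_simp
  · have : (0 : ℝ) ≤ (Y : ℝ) - P.natDegree := by linarith
    positivity

/-- the effect of the common factors -/
theorem trace_diff (h6 : (6 : k) ≠ 0) {Y : ℕ} (hY : 0 < Y) {A B z : k[X]} (hz : z ≠ 0) :
    ∑ P ∈ Irr k (Y - 1), wt k Y P * trP A B P ≤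
      ∑ P ∈ Irr k (Y - 1), wt k Y P * trP (z ^ 4 * A) (z ^ 6 * B) P + 2 * z.natDegree / Y := by
  classical
  have hY' : (0 : ℝ) < Y := by exact_mod_cast hY
  have h1 : ∀ P ∈ Irr k (Y - 1), wt k Y P * trP A B P ≤
      wt k Y P * trP (z ^ 4 * A) (z ^ 6 * B) P +
        (if P ∣ z then 2 / (Y : ℝ) * P.natDegree else 0) := by
    intro P hP
    rw [mem_Irr] at hP
    obtain ⟨p1, p2, p3⟩ := hP
    by_cases hd : P ∣ z
    · rw [if_pos hd, trP_zero h6 p2 ((dvd_pow hd (by norm_num)).mul_right _)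
        ((dvd_pow hd (by norm_num)).mul_right _)]
      simp only [Int.cast_zero, mul_zero, zero_add]
      have h2 := wt_bound hY (P := P) (by omega)
      have h3 := trP_bound h6 p2 A B
      have h4 := sqrt_ge_two h6 p2.natDegree_pos
      have hs := sq_pow (k := k) P.natDegree
      have hq : (0 : ℝ) < (Nat.card k : ℝ) ^ P.natDegree := pow_pos q_pos _
      calc wt k Y P * trP A B P ≤ |wt k Y P * trP A B P| := le_abs_self _
        _ = |wt k Y P| * |(trP A B P : ℝ)| := abs_mul _ _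
        _ ≤ (2 / (Y : ℝ) * P.natDegree / (Nat.card k : ℝ) ^ P.natDegree) *
            (2 * √(Nat.card k) ^ P.natDegree) := mul_le_mul h2 h3 (abs_nonneg _) (by positivity)
        _ ≤ (2 / (Y : ℝ) * P.natDegree / (Nat.card k : ℝ) ^ P.natDegree) *
            (√(Nat.card k) ^ P.natDegree * √(Nat.card k) ^ P.natDegree) := by
            apply mul_le_mul_of_nonneg_left _ (by positivity)
            exact mul_le_mul_of_nonneg_right h4 (by positivity)
        _ = 2 / (Y : ℝ) * P.natDegree := by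
            rw [← pow_two, hs]
            field_simp
    · rw [if_neg hd, trP_scale h6 p2 hd, add_zero]
  refine (sum_le_sum h1).trans ?_
  rw [sum_add_distrib]
  refine add_le_add le_rfl ?_
  rw [← sum_filter, ← mul_sum]
  have h2 : ∑ P ∈ (Irr k (Y - 1)).filter (fun P => P ∣ z), P.natDegree * 1 ≤ z.natDegree := by
    refine deg_sum_le (fun P hP => ?_) (fun _ => 1) hz fun P hP => ?_
    · rw [mem_filter, mem_Irr] at hP
      exact ⟨hP.1.1, hP.1.2.1⟩
    · rw [mem_filter] at hP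
      rw [pow_one]
      exact hP.2
  have h3 : ∑ P ∈ (Irr k (Y - 1)).filter (fun P => P ∣ z), (P.natDegree : ℝ) ≤ z.natDegree := by
    simp only [mul_one] at h2
    exact_mod_cast h2
  calc 2 / (Y : ℝ) * ∑ P ∈ (Irr k (Y - 1)).filter (fun P => P ∣ z), (P.natDegree : ℝ) ≤
        2 / (Y : ℝ) * z.natDegree := mul_le_mul_of_nonneg_left h3 (by positivity)
    _ = 2 * z.natDegree / Y := by ring

open Classical in
/-- the bound for the order of vanishing -/
theorem det4 (h6 : (6 : k) ≠ 0) {Y : ℕ} (hY : 0 < Y) {n d : ℕ} {u v s t z A B : k[X]}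
    (hu : u.natDegree ≤ n) (hv : v.natDegree ≤ n) (hs : s.natDegree ≤ n) (ht : t.natDegree ≤ n)
    (hv0 : v ≠ 0) (ht0 : t ≠ 0) (hz : z ≠ 0) (h1 : fA u v s t = z ^ 4 * A)
    (h2 : fB u v s t = z ^ 6 * B) (hD : 4 * A ^ 3 + 27 * B ^ 2 ≠ 0) {N : ℕ} {β : Fin N → ℂ}
    (hN : N + 4 = cdeg d A B) (hβ : ∀ i, ‖β i‖ = 1)
    (hps : ∀ m : ℕ, 0 < m → (psum d A B m : ℂ) = -((Nat.card k : ℂ) ^ m * ∑ i, β i ^ m)) :
    ((univ.filter fun i => β i = 1).card : ℝ) ≤
      13 * n / Y + 12 + ∑ P ∈ Irr k (Y - 1), wt k Y P * trP (fA u v s t) (fB u v s t) P := by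
  have hY' : (0 : ℝ) < Y := by exact_mod_cast hY
  have h3 := det h6 hY hβ hps
  have h4 := trace_diff h6 hY (A := A) (B := B) hz
  rw [← h1, ← h2] at h4
  have h5 := z_deg hu hv hs ht hz h1 h2 (disc_ne hD)
  have h7 := cdeg_le h6 (d := d) hu hv hs ht hv0 ht0 hz h1 h2 hD
  have h8 : N ≤ 9 * n := by
    rw [← hN] at h7
    omega
  have h9 : (N : ℝ) / Y + 2 * z.natDegree / Y ≤ 13 * n / Y := by
    rw [← add_div]
    apply div_le_div_of_nonneg_right _ hY'.le
    have a1 : (N : ℝ) ≤ 9 * n := by exact_mod_cast h8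
    have a2 : (z.natDegree : ℝ) ≤ 2 * n := by exact_mod_cast h5
    linarith
  linarith

end Pool.Agent.NH4.SB
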