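import Pool.Agent.TH180.RT.Mom

/-!
The twisting symmetry for the pairs of rational functions of bounded height.
-/

set_option autoImplicit false
set_option linter.all false
set_option maxHeartbeats 1000000

open Polynomial Finset

namespace Pool.Agent.NH4.SB

open Pool.Agent.TH180.RT

/-- numerators and denominators -/
abbrev Qd (k : Type) [Field k] (D₁ D₂ : ℕ) : Type := Om k D₁ D₁ × Om k D₂ D₂

section defs

variable {k : Type} [Field k]

/-- the first coefficient of an integral equation of `y ^ 2 = x ^ 3 + (u / v) x + s / t` -/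
noncomputable def fA (u v s t : k[X]) : k[X] := u * v ^ 3 * t ^ 4

/-- the second coefficient -/
noncomputable def fB (u v s t : k[X]) : k[X] := s * t ^ 5 * v ^ 6

/-- the first coefficient -/
noncomputable def qA {D₁ D₂ : ℕ} (ω : Qd k D₁ D₂) : k[X] := fA ω.1.1.1 ω.1.2.1 ω.2.1.1 ω.2.2.1

/-- the second coefficient -/
noncomputable def qB {D₁ D₂ : ℕ} (ω : Qd k D₁ D₂) : k[X] := fB ω.1.1.1 ω.1.2.1 ω.2.1.1 ω.2.2.1

end defs

variable {k : Type} [Field k] [Fintype k] [DecidableEq k]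

theorem card_Qd (D₁ D₂ : ℕ) : (Fintype.card (Qd k D₁ D₂) : ℝ) =
    (Fintype.card k : ℝ) ^ (2 * D₁ + 2 * D₂) := by
  rw [Fintype.card_prod, Fintype.card_prod, Fintype.card_prod, card_LT, card_LT]
  push_cast
  ring

theorem sym4 {M : k[X]} (hM : M.Monic) {D₁ D₂ : ℕ} (h1 : M.natDegree ≤ D₁)
    (h2 : M.natDegree ≤ D₂) {l : k[X]} (hl : IsCoprime l M) (F : k[X] → k[X] → ℝ)
    (hF : ∀ A A' B B', M ∣ A - A' → M ∣ B - B' → F A B = F A' B') :
    ∑ ω : Qd k D₁ D₂, F (l ^ 2 * qA ω) (l ^ 3 * qB ω) = ∑ ω : Qd k D₁ D₂, F (qA ω) (qB ω) := by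
  classical
  have hfin : Finite (AdjoinRoot M) := finAR hM.ne_zero
  let _ : Fintype (AdjoinRoot M) := Fintype.ofFinite _
  have hu : IsUnit (AdjoinRoot.mk M l) := by
    obtain ⟨a, b, hab⟩ := hl
    refine IsUnit.of_mul_eq_one (AdjoinRoot.mk M a) ?_
    rw [← map_mul, ← map_one (AdjoinRoot.mk M), AdjoinRoot.mk_eq_mk]
    exact ⟨-b, by linear_combination hab⟩
  obtain ⟨u, hu⟩ := hu
  set rep : AdjoinRoot M → k[X] := Function.surjInv AdjoinRoot.mk_surjective with hrep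
  have hr : ∀ c, AdjoinRoot.mk M (rep c) = c := Function.surjInv_eq _
  let φ : Qd k D₁ D₂ →+ (AdjoinRoot M × AdjoinRoot M) × (AdjoinRoot M × AdjoinRoot M) :=
    ((redM M D₁).prodMap (redM M D₁)).prodMap ((redM M D₂).prodMap (redM M D₂))
  have hφ : Function.Surjective φ := by
    rintro ⟨⟨a, b⟩, ⟨c, d⟩⟩
    obtain ⟨x, hx⟩ := redM_surj hM h1 a
    obtain ⟨y, hy⟩ := redM_surj hM h1 b
    obtain ⟨z, hz⟩ := redM_surj hM h2 c
    obtain ⟨w, hw⟩ := redM_surj hM h2 d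
    exact ⟨((x, y), (z, w)), by
      show ((redM M D₁ x, redM M D₁ y), (redM M D₂ z, redM M D₂ w)) = _
      rw [hx, hy, hz, hw]⟩
  let g : (AdjoinRoot M × AdjoinRoot M) × (AdjoinRoot M × AdjoinRoot M) → ℝ :=
    fun c => F (rep (c.1.1 * c.1.2 ^ 3 * c.2.2 ^ 4)) (rep (c.2.1 * c.2.2 ^ 5 * c.1.2 ^ 6))
  let e : (AdjoinRoot M × AdjoinRoot M) × (AdjoinRoot M × AdjoinRoot M) ≃
      (AdjoinRoot M × AdjoinRoot M) × (AdjoinRoot M × AdjoinRoot M) :=
    ((Units.mulLeft (u ^ 2)).prodCongr (Equiv.refl _)).prodCongr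
      ((Units.mulLeft (u ^ 3)).prodCongr (Equiv.refl _))
  have key := sum_twist φ hφ g e
  have e1 : ∀ ω : Qd k D₁ D₂, g (e (φ ω)) = F (l ^ 2 * qA ω) (l ^ 3 * qB ω) := by
    intro ω
    show F (rep ((((u ^ 2 : (AdjoinRoot M)ˣ) : AdjoinRoot M) * AdjoinRoot.mk M ω.1.1.1) *
      (AdjoinRoot.mk M ω.1.2.1) ^ 3 * (AdjoinRoot.mk M ω.2.2.1) ^ 4))
      (rep ((((u ^ 3 : (AdjoinRoot M)ˣ) : AdjoinRoot M) * AdjoinRoot.mk M ω.2.1.1) *
      (AdjoinRoot.mk M ω.2.2.1) ^ 5 * (AdjoinRoot.mk M ω.1.2.1) ^ 6)) = _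
    apply hF
    · rw [← AdjoinRoot.mk_eq_mk, hr]
      unfold qA fA
      simp only [map_mul, map_pow]
      rw [← hu]
      push_cast
      ring
    · rw [← AdjoinRoot.mk_eq_mk, hr]
      unfold qB fB
      simp only [map_mul, map_pow]
      rw [← hu]
      push_cast
      ring
  have e2 : ∀ ω : Qd k D₁ D₂, g (φ ω) = F (qA ω) (qB ω) := by
    intro ω
    show F (rep (AdjoinRoot.mk M ω.1.1.1 * (AdjoinRoot.mk M ω.1.2.1) ^ 3 *
        (AdjoinRoot.mk M ω.2.2.1) ^ 4))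
      (rep (AdjoinRoot.mk M ω.2.1.1 * (AdjoinRoot.mk M ω.2.2.1) ^ 5 *
        (AdjoinRoot.mk M ω.1.2.1) ^ 6)) = _
    apply hF
    · rw [← AdjoinRoot.mk_eq_mk, hr]
      unfold qA fA
      simp only [map_mul, map_pow]
    · rw [← AdjoinRoot.mk_eq_mk, hr]
      unfold qB fB
      simp only [map_mul, map_pow]
  rw [sum_congr rfl fun ω _ => e1 ω, sum_congr rfl fun ω _ => e2 ω] at key
  exact key

/-- the symmetry of the moments -/
theorem sym_main4 (h6 : (6 : k) ≠ 0) (S : Finset k[X]) {Y n D₁ D₂ : ℕ}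
    (hS : ∀ P ∈ S, P.Monic ∧ Irreducible P ∧ P.natDegree ≤ Y) (h1 : n * Y ≤ D₁) (h2 : n * Y ≤ D₂)
    (w : k[X] → ℝ) (ε : S → Bool) :
    ∑ ω : Qd k D₁ D₂, (∑ P : S, sg (ε P) * (w P * trP (qA ω) (qB ω) P)) ^ n =
      ∑ ω : Qd k D₁ D₂, (∑ P : S, w P * trP (qA ω) (qB ω) P.1) ^ n := by
  classical
  simp_rw [Fintype.sum_pow]
  rw [sum_comm, sum_comm (s := (univ : Finset (Qd k D₁ D₂)))]
  refine sum_congr rfl fun p _ => ?_
  set M : k[X] := ∏ i, (p i).1 with hM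
  have hmon : M.Monic := monic_prod_of_monic _ _ fun i _ => (hS _ (p i).2).1
  have hdeg : M.natDegree ≤ n * Y := by
    rw [hM, natDegree_prod_of_monic _ _ fun i _ => (hS _ (p i).2).1]
    calc ∑ i, ((p i).1).natDegree ≤ ∑ i : Fin n, Y := sum_le_sum fun i _ => (hS _ (p i).2).2.2
      _ = n * Y := by simp
  obtain ⟨l, hl⟩ := exists_l h6 S (fun P hP => ⟨(hS P hP).1, (hS P hP).2.1⟩)
    (fun P => if h : P ∈ S then ε ⟨P, h⟩ else true)
  have hcop : IsCoprime l M := by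
    rw [hM]
    refine IsCoprime.prod_right fun i _ => ?_
    exact ((hS _ (p i).2).2.1.coprime_iff_not_dvd.2 (hl _ (p i).2).1).symm
  have key := sym4 hmon (hdeg.trans h1) (hdeg.trans h2) hcop
    (fun A B => ∏ i, w (p i) * trP A B (p i).1) (by
      intro A A' B B' hA hB
      refine prod_congr rfl fun i _ => ?_
      have hd : (p i).1 ∣ M := dvd_prod_of_mem _ (mem_univ i)
      rw [trP_congr (hd.trans hA) (hd.trans hB)])
  rw [← key]
  refine sum_congr rfl fun ω _ => prod_congr rfl fun i _ => ?_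
  rw [trP_twist h6 (hS _ (p i).2).2.1 (hl _ (p i).2).1]
  have h3 := (hl _ (p i).2).2
  rw [dif_pos (p i).2] at h3
  rw [h3]
  unfold sg
  cases ε (p i) <;> simp

/-- the moment bound for weighted sums of traces -/
theorem moment4 (h6 : (6 : k) ≠ 0) (S : Finset k[X]) {Y m D₁ D₂ : ℕ}
    (hS : ∀ P ∈ S, P.Monic ∧ Irreducible P ∧ P.natDegree ≤ Y) (hm : 0 < m)
    (h1 : 2 * m * Y ≤ D₁) (h2 : 2 * m * Y ≤ D₂) (w : k[X] → ℝ) {V : ℝ} (hV : 0 < V)
    (hw : ∀ A B : k[X], ∑ P ∈ S, (w P * trP A B P) ^ 2 ≤ V) :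
    ∑ ω : Qd k D₁ D₂, (∑ P ∈ S, w P * trP (qA ω) (qB ω) P) ^ (2 * m) ≤
      (Fintype.card k : ℝ) ^ (2 * D₁ + 2 * D₂) *
        (2 * (2 * m).factorial * (Real.exp 1 * V / (2 * m)) ^ m) := by
  classical
  have key := moment (Ω := Qd k D₁ D₂) (ι := S) (fun P ω => w P * trP (qA ω) (qB ω) P.1) hV
    (fun ω => by
      rw [sum_coe_sort S fun P => (w P * (trP (qA ω) (qB ω) P : ℝ)) ^ 2]
      exact hw _ _) hm (fun ε => sym_main4 h6 S hS h1 h2 w ε)
  rw [card_Qd] at key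
  refine le_trans (le_of_eq ?_) key
  refine sum_congr rfl fun ω _ => ?_
  rw [sum_coe_sort S fun P => w P * (trP (qA ω) (qB ω) P : ℝ)]

end Pool.Agent.NH4.SB
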