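import Pool.Agent.NH4.SB.Tail

/-!
Counting rational functions of bounded height.
-/

set_option autoImplicit false
set_option linter.all false
set_option maxHeartbeats 1000000

open Polynomial Finset

namespace Pool.Agent.NH4.SB

open Pool.Agent.TH180.RT

section field

variable {k : Type} [Field k]

/-- the logarithmic height -/
noncomputable def hgt (x : RatFunc k) : ℕ := max x.num.natDegree x.denom.natDegree

theorem alg_ne {v : k[X]} (hv : v ≠ 0) : algebraMap k[X] (RatFunc k) v ≠ 0 := by
  rw [Ne, map_eq_zero_iff _ (RatFunc.algebraMap_injective k)]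
  exact hv

/-- a fraction in terms of the reduced one -/
theorem frac_eq {u v : k[X]} (hv : v ≠ 0) {x : RatFunc k}
    (h : algebraMap k[X] (RatFunc k) u / algebraMap k[X] (RatFunc k) v = x) :
    ∃ g : k[X], g ≠ 0 ∧ u = g * x.num ∧ v = g * x.denom := by
  have hv' := alg_ne hv
  have hd' := alg_ne x.denom_ne_zero
  have h1 : u * x.denom = v * x.num := by
    apply RatFunc.algebraMap_injective k
    rw [map_mul, map_mul]
    rw [← RatFunc.num_div_denom x, div_eq_div_iff hv' hd'] at h
    rw [h, mul_comm]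
  have hcop : IsCoprime x.num x.denom := RatFunc.isCoprime_num_denom x
  have h2 : x.denom ∣ v := by
    apply hcop.symm.dvd_of_dvd_mul_right
    rw [← h1]
    exact dvd_mul_left _ _
  obtain ⟨g, hg⟩ := h2
  refine ⟨g, ?_, ?_, ?_⟩
  · rintro rfl
    rw [mul_zero] at hg
    exact hv hg
  · apply mul_right_cancel₀ x.denom_ne_zero
    rw [h1, hg]
    ring
  · rw [hg, mul_comm]

theorem frac_of {x : RatFunc k} {g : k[X]} (hg : g ≠ 0) :
    algebraMap k[X] (RatFunc k) (g * x.num) / algebraMap k[X] (RatFunc k) (g * x.denom) = x := by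
  have hg' := alg_ne hg
  have hd' := alg_ne x.denom_ne_zero
  rw [map_mul, map_mul, mul_div_mul_left _ _ hg', RatFunc.num_div_denom]

theorem hgt_le {u v : k[X]} (hv : v ≠ 0) {n : ℕ} (h1 : u.natDegree ≤ n) (h2 : v.natDegree ≤ n) :
    hgt (algebraMap k[X] (RatFunc k) u / algebraMap k[X] (RatFunc k) v) ≤ n := by
  obtain ⟨g, hg, e1, e2⟩ := frac_eq hv (x := algebraMap k[X] (RatFunc k) u /
    algebraMap k[X] (RatFunc k) v) rfl
  unfold hgt
  refine max_le ?_ ?_
  · by_cases h0 : (algebraMap k[X] (RatFunc k) u / algebraMap k[X] (RatFunc k) v).num = 0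
    · rw [h0]
      simp
    · rw [e1, natDegree_mul hg h0] at h1
      omega
  · have h0 := (algebraMap k[X] (RatFunc k) u / algebraMap k[X] (RatFunc k) v).denom_ne_zero
    have h3 := h2
    rw [e2, natDegree_mul hg h0] at h3
    omega

end field

variable {k : Type} [Field k] [Fintype k] [DecidableEq k]

/-- the ratio of a pair -/
noncomputable def rat {D : ℕ} (ω : Om k D D) : RatFunc k :=
  algebraMap k[X] (RatFunc k) ω.1.1 / algebraMap k[X] (RatFunc k) ω.2.1

theorem fin_hgt (n : ℕ) : {x : RatFunc k | hgt x ≤ n}.Finite := by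
  refine (Set.finite_range fun ω : Om k (n + 1) (n + 1) => rat ω).subset ?_
  intro x hx
  have h1 : max x.num.natDegree x.denom.natDegree ≤ n := hx
  refine ⟨(⟨x.num, mem_of_natDegree ((le_max_left _ _).trans h1)⟩,
    ⟨x.denom, mem_of_natDegree ((le_max_right _ _).trans h1)⟩), ?_⟩
  exact RatFunc.num_div_denom x

/-- the rational functions of height at most `n` -/
noncomputable def Ht (k : Type) [Field k] [Fintype k] [DecidableEq k] (n : ℕ) :
    Finset (RatFunc k) := (fin_hgt (k := k) n).toFinset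

theorem mem_Ht {n : ℕ} {x : RatFunc k} : x ∈ Ht k n ↔ hgt x ≤ n := by
  unfold Ht
  rw [Set.Finite.mem_toFinset]
  rfl

open Classical in
/-- the pairs with given ratio -/
theorem card_fib {n : ℕ} {x : RatFunc k} (hx : hgt x ≤ n) :
    ((univ.filter fun ω : Om k (n + 1) (n + 1) => ω.2.1 ≠ 0 ∧ rat ω = x).card : ℝ) =
      (Nat.card k : ℝ) ^ (n + 1 - hgt x) - 1 := by
  have h1 : ((univ : Finset (degreeLT k (n + 1 - hgt x))).erase 0).card =
      Nat.card k ^ (n + 1 - hgt x) - 1 := by
    rw [card_erase_of_mem (mem_univ _), card_univ, card_LT, Nat.card_eq_fintype_card]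
  have h2 : ((univ : Finset (degreeLT k (n + 1 - hgt x))).erase 0).card =
      (univ.filter fun ω : Om k (n + 1) (n + 1) => ω.2.1 ≠ 0 ∧ rat ω = x).card := by
    have hmem : ∀ g : degreeLT k (n + 1 - hgt x), ∀ p : k[X], p.natDegree ≤ hgt x →
        g.1 * p ∈ degreeLT k (n + 1) := by
      intro g p hp
      by_cases h0 : g.1 = 0
      · rw [h0, zero_mul]
        exact Submodule.zero_mem _
      · apply mem_of_natDegree
        have h3 := mem_degreeLT.1 g.2
        rw [degree_eq_natDegree h0] at h3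
        have h4 : g.1.natDegree < n + 1 - hgt x := by exact_mod_cast h3
        refine natDegree_mul_le.trans ?_
        omega
    refine card_bij (fun g _ => (⟨g.1 * x.num, hmem g _ (le_max_left _ _)⟩,
      ⟨g.1 * x.denom, hmem g _ (le_max_right _ _)⟩)) ?_ ?_ ?_
    · intro g hg
      have hg0 : g.1 ≠ 0 := by
        intro h
        exact (mem_erase.1 hg).1 (Subtype.ext h)
      rw [mem_filter]
      exact ⟨mem_univ _, mul_ne_zero hg0 x.denom_ne_zero, frac_of hg0⟩
    · intro g _ g' _ h
      simp only [Prod.mk.injEq, Subtype.mk.injEq] at h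
      exact Subtype.ext (mul_right_cancel₀ x.denom_ne_zero h.2)
    · intro ω hω
      rw [mem_filter] at hω
      obtain ⟨-, h3, h4⟩ := hω
      obtain ⟨g, hg, e1, e2⟩ := frac_eq h3 h4
      have hdeg : g.natDegree + hgt x ≤ n := by
        have d1 := natDegree_of_mem ω.1.2
        have d2 := natDegree_of_mem ω.2.2
        have d4 : g.natDegree + x.denom.natDegree ≤ n := by
          have d3 := d2
          rw [e2, natDegree_mul hg x.denom_ne_zero] at d3
          exact d3
        by_cases h0 : x.num = 0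
        · have h5 : hgt x = x.denom.natDegree := by
            unfold hgt
            rw [h0, natDegree_zero]
            exact max_eq_right (Nat.zero_le _)
          rw [h5]
          exact d4
        · rw [e1, natDegree_mul hg h0] at d1
          unfold hgt
          rcases le_total x.num.natDegree x.denom.natDegree with h | h
          · rw [max_eq_right h]; exact d4
          · rw [max_eq_left h]; exact d1
      have hgm : g ∈ degreeLT k (n + 1 - hgt x) := by
        rw [mem_degreeLT, degree_eq_natDegree hg]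
        exact_mod_cast (by omega : g.natDegree < n + 1 - hgt x)
      refine ⟨⟨g, hgm⟩, ?_, ?_⟩
      · rw [mem_erase]
        refine ⟨?_, mem_univ _⟩
        intro h
        exact hg (congrArg Subtype.val h)
      · exact Prod.ext (Subtype.ext e1.symm) (Subtype.ext e2.symm)
  rw [← h2, h1, Nat.cast_sub (Nat.one_le_pow _ _ Nat.card_pos)]
  push_cast
  rfl

open Classical in
/-- the sum over pairs of a function of the ratio -/
noncomputable def Gs (n : ℕ) (f : RatFunc k → ℝ) : ℝ :=
  ∑ ω ∈ univ.filter (fun ω : Om k (n + 1) (n + 1) => ω.2.1 ≠ 0), f (rat ω)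

open Classical in
theorem Gs_eq (n : ℕ) (f : RatFunc k → ℝ) :
    Gs n f = ∑ x ∈ Ht k n, f x * ((Nat.card k : ℝ) ^ (n + 1 - hgt x) - 1) := by
  unfold Gs
  rw [← sum_fiberwise_of_maps_to (s := univ.filter fun ω : Om k (n + 1) (n + 1) => ω.2.1 ≠ 0)
    (t := Ht k n) (g := fun ω => rat ω) (fun ω hω => by
      rw [mem_filter] at hω
      rw [mem_Ht]
      exact hgt_le hω.2 (natDegree_of_mem ω.1.2) (natDegree_of_mem ω.2.2))]
  refine sum_congr rfl fun x hx => ?_
  rw [mem_Ht] at hx
  have h1 : ∑ ω ∈ (univ.filter fun ω : Om k (n + 1) (n + 1) => ω.2.1 ≠ 0).filter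
      (fun ω => rat ω = x), f (rat ω) = ∑ ω ∈ (univ.filter fun ω : Om k (n + 1) (n + 1) =>
        ω.2.1 ≠ 0).filter (fun ω => rat ω = x), f x := by
    refine sum_congr rfl fun ω hω => ?_
    rw [mem_filter] at hω
    rw [hω.2]
  rw [h1, sum_const, nsmul_eq_mul, filter_filter, card_fib hx, mul_comm]

/-- the sum over the rational functions of bounded height -/
theorem sum_Ht_zero (f : RatFunc k → ℝ) : ((Nat.card k : ℝ) - 1) * ∑ x ∈ Ht k 0, f x = Gs 0 f := by
  rw [Gs_eq, mul_sum]
  refine sum_congr rfl fun x hx => ?_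
  rw [mem_Ht, Nat.le_zero] at hx
  rw [hx]
  ring

theorem Ht_mono {n m : ℕ} (h : n ≤ m) : Ht k n ⊆ Ht k m := by
  intro x hx
  rw [mem_Ht] at hx ⊢
  exact hx.trans h

theorem sum_Ht_succ (n : ℕ) (f : RatFunc k → ℝ) :
    ((Nat.card k : ℝ) - 1) * ∑ x ∈ Ht k (n + 1), f x = Gs (n + 1) f - (Nat.card k : ℝ) * Gs n f := by
  rw [Gs_eq, Gs_eq]
  have h1 : ∑ x ∈ Ht k n, f x * ((Nat.card k : ℝ) ^ (n + 1 - hgt x) - 1) =
      ∑ x ∈ Ht k (n + 1), f x * ((Nat.card k : ℝ) ^ (n + 1 - hgt x) - 1) := by
    refine sum_subset (Ht_mono (Nat.le_succ n)) ?_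
    intro x hx hx'
    rw [mem_Ht] at hx hx'
    have : hgt x = n + 1 := by omega
    rw [this]
    simp
  rw [h1, mul_sum, mul_sum, ← sum_sub_distrib]
  refine sum_congr rfl fun x hx => ?_
  rw [mem_Ht] at hx
  have e : n + 1 + 1 - hgt x = (n + 1 - hgt x) + 1 := by omega
  rw [e, pow_succ]
  ring

theorem Gs_one (n : ℕ) : Gs (k := k) n (fun _ => 1) =
    (Nat.card k : ℝ) ^ (2 * n + 2) - (Nat.card k : ℝ) ^ (n + 1) := by
  classical
  unfold Gs
  rw [sum_const, nsmul_eq_mul, mul_one]
  have h1 : (univ.filter fun ω : Om k (n + 1) (n + 1) => ω.2.1 ≠ 0) =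
      (univ : Finset (degreeLT k (n + 1))) ×ˢ ((univ : Finset (degreeLT k (n + 1))).erase 0) := by
    ext ω
    rw [mem_filter, mem_product, mem_erase]
    constructor
    · rintro ⟨-, h⟩
      refine ⟨mem_univ _, ?_, mem_univ _⟩
      intro h0
      rw [h0] at h
      exact h rfl
    · rintro ⟨-, h, -⟩
      refine ⟨mem_univ _, fun h0 => h (Subtype.ext h0)⟩
  have h2 : (univ.filter fun ω : Om k (n + 1) (n + 1) => ω.2.1 ≠ 0).card =
      Nat.card k ^ (n + 1) * (Nat.card k ^ (n + 1) - 1) := by
    rw [h1, card_product, card_erase_of_mem (mem_univ _), card_univ, card_LT,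
      Nat.card_eq_fintype_card]
  have h3 : ((univ.filter fun ω : Om k (n + 1) (n + 1) => ω.2.1 ≠ 0).card : ℝ) =
      (Nat.card k : ℝ) ^ (n + 1) * ((Nat.card k : ℝ) ^ (n + 1) - 1) := by
    rw [h2, Nat.cast_mul, Nat.cast_sub (Nat.one_le_pow _ _ Nat.card_pos)]
    push_cast
    rfl
  convert h3 using 1
  ring

/-- the number of rational functions of bounded height -/
theorem card_Ht (n : ℕ) : ((Ht k n).card : ℝ) = (Nat.card k : ℝ) ^ (2 * n + 1) := by
  have hq := q_two (k := k)
  have hq1 : (Nat.card k : ℝ) - 1 ≠ 0 := by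
    intro h
    linarith
  cases n with
  | zero =>
    have h1 := sum_Ht_zero (k := k) (fun _ => 1)
    rw [Gs_one, sum_const, nsmul_eq_mul, mul_one] at h1
    apply mul_left_cancel₀ hq1
    rw [h1]
    ring
  | succ n =>
    have h1 := sum_Ht_succ (k := k) n (fun _ => 1)
    rw [Gs_one, Gs_one, sum_const, nsmul_eq_mul, mul_one] at h1
    apply mul_left_cancel₀ hq1
    rw [h1]
    ring

end Pool.Agent.NH4.SB
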