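import Pool.Agent.NH4.SB.Count

/-!
From quadruples of polynomials to pairs of rational functions.
-/

set_option autoImplicit false
set_option linter.all false
set_option maxHeartbeats 1000000

open Polynomial Finset

namespace Pool.Agent.NH4.SB

open Pool.Agent.TH180.RT

variable {k : Type} [Field k] [Fintype k] [DecidableEq k]

open Classical in
/-- the pairs of height at most `n` defining elliptic curves -/
noncomputable def Sn (k : Type) [Field k] [Fintype k] [DecidableEq k] (n : ℕ) :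
    Finset (RatFunc k × RatFunc k) :=
  (Ht k n ×ˢ Ht k n).filter fun x => 4 * x.1 ^ 3 + 27 * x.2 ^ 2 ≠ 0

open Classical in
theorem card_quad (n : ℕ) (p : RatFunc k → RatFunc k → Prop) :
    ((univ.filter fun ω : Qd k (n + 1) (n + 1) => ω.1.2.1 ≠ 0 ∧ ω.2.2.1 ≠ 0 ∧
      p (ra ω) (rb ω)).card : ℝ) =
    ∑ x ∈ (Ht k n ×ˢ Ht k n).filter (fun x => p x.1 x.2),
      ((Nat.card k : ℝ) ^ (n + 1 - hgt x.1) - 1) * ((Nat.card k : ℝ) ^ (n + 1 - hgt x.2) - 1) := by
  rw [card_eq_sum_card_fiberwise (f := fun ω : Qd k (n + 1) (n + 1) => (ra ω, rb ω))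
    (t := (Ht k n ×ˢ Ht k n).filter (fun x => p x.1 x.2)) ?_]
  · push_cast
    refine sum_congr rfl fun x hx => ?_
    rw [mem_filter, mem_product, mem_Ht, mem_Ht] at hx
    have h1 : (univ.filter fun ω : Qd k (n + 1) (n + 1) => ω.1.2.1 ≠ 0 ∧ ω.2.2.1 ≠ 0 ∧
        p (ra ω) (rb ω)).filter (fun ω => (ra ω, rb ω) = x) =
        (univ.filter fun ω : Om k (n + 1) (n + 1) => ω.2.1 ≠ 0 ∧ rat ω = x.1) ×ˢ
        (univ.filter fun ω : Om k (n + 1) (n + 1) => ω.2.1 ≠ 0 ∧ rat ω = x.2) := by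
      ext ω
      rw [mem_filter, mem_filter, mem_product, mem_filter, mem_filter]
      constructor
      · rintro ⟨⟨-, h1, h2, h3⟩, h4⟩
        exact ⟨⟨mem_univ _, h1, congrArg Prod.fst h4⟩, ⟨mem_univ _, h2, congrArg Prod.snd h4⟩⟩
      · rintro ⟨⟨-, h1, h2⟩, ⟨-, h3, h4⟩⟩
        have h5 : ra ω = x.1 := h2
        have h6 : rb ω = x.2 := h4
        refine ⟨⟨mem_univ _, h1, h3, ?_⟩, ?_⟩
        · rw [h5, h6]
          exact hx.2
        · rw [h5, h6]
    rw [h1, card_product, Nat.cast_mul, card_fib hx.1.1, card_fib hx.1.2]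
  · intro ω hω
    rw [mem_coe, mem_filter] at hω
    rw [mem_coe, mem_filter, mem_product, mem_Ht, mem_Ht]
    obtain ⟨-, h1, h2, h3⟩ := hω
    exact ⟨⟨hgt_le h1 (natDegree_of_mem ω.1.1.2) (natDegree_of_mem ω.1.2.2),
      hgt_le h2 (natDegree_of_mem ω.2.1.2) (natDegree_of_mem ω.2.2.2)⟩, h3⟩

open Classical in
theorem pairs_le (n : ℕ) (p : RatFunc k → RatFunc k → Prop) :
    (((Ht k n ×ˢ Ht k n).filter (fun x => p x.1 x.2)).card : ℝ) * ((Nat.card k : ℝ) - 1) ^ 2 ≤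
      ((univ.filter fun ω : Qd k (n + 1) (n + 1) => ω.1.2.1 ≠ 0 ∧ ω.2.2.1 ≠ 0 ∧
        p (ra ω) (rb ω)).card : ℝ) := by
  have hq := q_two (k := k)
  rw [card_quad, ← nsmul_eq_mul, ← sum_const]
  refine sum_le_sum fun x hx => ?_
  rw [mem_filter, mem_product, mem_Ht, mem_Ht] at hx
  have h1 : ∀ y : RatFunc k, hgt y ≤ n →
      (Nat.card k : ℝ) - 1 ≤ (Nat.card k : ℝ) ^ (n + 1 - hgt y) - 1 := by
    intro y hy
    have h2 : (Nat.card k : ℝ) ^ 1 ≤ (Nat.card k : ℝ) ^ (n + 1 - hgt y) :=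
      pow_le_pow_right₀ (by linarith) (by omega)
    rw [pow_one] at h2
    linarith
  rw [pow_two]
  exact mul_le_mul (h1 _ hx.1.1) (h1 _ hx.1.2) (by linarith) (by linarith [h1 _ hx.1.1])

open Classical in
theorem card_sing4 (h6 : (6 : k) ≠ 0) (n : ℕ) :
    (((Ht k n ×ˢ Ht k n).filter fun x => 4 * x.1 ^ 3 + 27 * x.2 ^ 2 = 0).card : ℝ) ≤
      2 * (Nat.card k : ℝ) ^ (2 * n + 1) := by
  have h27 : (27 : RatFunc k) ≠ 0 := by
    have h : (27 : k) ≠ 0 := by
      have : (27 : k) = 3 ^ 3 := by norm_num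
      rw [this]; exact pow_ne_zero _ (n3 h6)
    have e : (27 : RatFunc k) = algebraMap k (RatFunc k) 27 := by rw [map_ofNat]
    rw [e]
    exact (_root_.map_ne_zero _).2 h
  have h1 := card_le_mul_card_image (f := fun x : RatFunc k × RatFunc k => x.1)
    ((Ht k n ×ˢ Ht k n).filter fun x => 4 * x.1 ^ 3 + 27 * x.2 ^ 2 = 0) 2 (by
      intro a ha
      rw [mem_image] at ha
      obtain ⟨x₀, hx₀, ha⟩ := ha
      rw [mem_filter] at hx₀
      have h5 : ((Ht k n ×ˢ Ht k n).filter fun x => 4 * x.1 ^ 3 + 27 * x.2 ^ 2 = 0).filter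
          (fun x => x.1 = a) ⊆ {(a, x₀.2), (a, -x₀.2)} := by
        intro x hx
        rw [mem_filter, mem_filter] at hx
        obtain ⟨⟨-, h7⟩, h8⟩ := hx
        have h9 := hx₀.2
        rw [ha] at h9
        rw [h8] at h7
        have h10 : (27 : RatFunc k) * ((x.2 - x₀.2) * (x.2 + x₀.2)) = 0 := by
          linear_combination h7 - h9
        rw [mem_insert, mem_singleton]
        rcases mul_eq_zero.1 ((mul_eq_zero.1 h10).resolve_left h27) with h | h
        · left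
          exact Prod.ext h8 (sub_eq_zero.1 h)
        · right
          exact Prod.ext h8 (eq_neg_of_add_eq_zero_left h)
      exact (card_le_card h5).trans (card_le_two))
  have h2 : (((Ht k n ×ˢ Ht k n).filter fun x => 4 * x.1 ^ 3 + 27 * x.2 ^ 2 = 0).image
      fun x : RatFunc k × RatFunc k => x.1).card ≤ (Ht k n).card := by
    apply card_le_card
    intro a ha
    rw [mem_image] at ha
    obtain ⟨x, hx, rfl⟩ := ha
    rw [mem_filter, mem_product] at hx
    exact hx.1.1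
  rw [← card_Ht]
  exact_mod_cast h1.trans (Nat.mul_le_mul_left 2 h2)

open Classical in
theorem card_Sn_ge (h6 : (6 : k) ≠ 0) (n : ℕ) :
    (Nat.card k : ℝ) ^ (4 * n + 2) - 2 * (Nat.card k : ℝ) ^ (2 * n + 1) ≤ ((Sn k n).card : ℝ) := by
  have h1 := card_filter_add_card_filter_not (s := Ht k n ×ˢ Ht k n)
    (fun x => 4 * x.1 ^ 3 + 27 * x.2 ^ 2 = 0)
  have h2 : (((Ht k n ×ˢ Ht k n).filter fun x => 4 * x.1 ^ 3 + 27 * x.2 ^ 2 = 0).card : ℝ) +
      ((Sn k n).card : ℝ) = (Nat.card k : ℝ) ^ (4 * n + 2) := by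
    have h3 : ((Ht k n ×ˢ Ht k n).card : ℝ) = (Nat.card k : ℝ) ^ (4 * n + 2) := by
      rw [card_product, Nat.cast_mul, card_Ht]
      ring
    rw [← h3, ← h1, Nat.cast_add]
    rfl
  have h3 := card_sing4 h6 n
  linarith

theorem card_Sn_le (n : ℕ) : ((Sn k n).card : ℝ) ≤ (Nat.card k : ℝ) ^ (4 * n + 2) := by
  classical
  have h3 : ((Ht k n ×ˢ Ht k n).card : ℝ) = (Nat.card k : ℝ) ^ (4 * n + 2) := by
    rw [card_product, Nat.cast_mul, card_Ht]
    ring
  rw [← h3]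
  exact_mod_cast card_le_card (filter_subset _ _)

/-- at least two thirds -/
theorem card_Sn_half (h6 : (6 : k) ≠ 0) {n : ℕ} (hn : 0 < n) :
    (Nat.card k : ℝ) ^ (4 * n + 4) ≤ 2 * (((Sn k n).card : ℝ) * ((Nat.card k : ℝ) - 1) ^ 2) := by
  have h1 := card_Sn_ge h6 n
  have hq : (5 : ℝ) ≤ Nat.card k := by exact_mod_cast q_ge_five h6
  set q : ℝ := (Nat.card k : ℝ) with hqd
  set s : ℝ := ((Sn k n).card : ℝ) with hs
  have h2 : q ^ (2 * n + 1) * 125 ≤ q ^ (4 * n + 2) := by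
    have e : q ^ (4 * n + 2) = q ^ (2 * n + 1) * q ^ (2 * n + 1) := by
      rw [← pow_add]
      congr 1
      ring
    rw [e]
    apply mul_le_mul_of_nonneg_left _ (by positivity)
    calc (125 : ℝ) = 5 ^ 3 := by norm_num
      _ ≤ q ^ 3 := pow_le_pow_left₀ (by norm_num) hq 3
      _ ≤ q ^ (2 * n + 1) := pow_le_pow_right₀ (by linarith) (by omega)
  have h3 : 123 / 125 * q ^ (4 * n + 2) ≤ s := by
    have : (0 : ℝ) < q ^ (4 * n + 2) := by positivity
    linarith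
  have h4 : 16 / 25 * q ^ 2 ≤ (q - 1) ^ 2 := by nlinarith
  have e : q ^ (4 * n + 4) = q ^ (4 * n + 2) * q ^ 2 := by
    rw [← pow_add]
  rw [e]
  have h5 : 0 < q ^ (4 * n + 2) := by positivity
  have h6 : 0 < q ^ 2 := by positivity
  have h7 : 123 / 125 * q ^ (4 * n + 2) * (16 / 25 * q ^ 2) ≤ s * (q - 1) ^ 2 :=
    mul_le_mul h3 h4 (by positivity) (by linarith)
  nlinarith [mul_pos h5 h6]

open Classical in
/-- **the tail** for pairs -/
theorem tail_pairs (h6 : (6 : k) ≠ 0) (n : ℕ) {R : ℕ} (hR : 0 < R) :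
    (((Sn k n).filter fun x => Ord x.1 x.2 R).card : ℝ) ≤ 2 * tl 48 R * ((Sn k n).card : ℝ) := by
  have hq : (5 : ℝ) ≤ Nat.card k := by exact_mod_cast q_ge_five h6
  have hq1 : (0 : ℝ) < ((Nat.card k : ℝ) - 1) ^ 2 := by
    have : (0 : ℝ) < (Nat.card k : ℝ) - 1 := by linarith
    positivity
  have h0 : (((Sn k n).filter fun x => Ord x.1 x.2 R).card : ℝ) ≤
      (((Ht k n ×ˢ Ht k n).filter (fun x => Ord x.1 x.2 R)).card : ℝ) := by
    exact_mod_cast card_le_card (filter_subset_filter _ (filter_subset _ _))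
  have h1 := pairs_le n (fun a b : RatFunc k => Ord a b R)
  rcases Nat.eq_zero_or_pos n with hn | hn
  · subst hn
    have h2 : ((Sn k 0).filter fun x => Ord x.1 x.2 R) = ∅ := by
      rw [filter_eq_empty_iff]
      intro x hx h
      unfold Sn at hx
      rw [mem_filter, mem_product, mem_Ht, mem_Ht] at hx
      obtain ⟨⟨g1, g2⟩, -⟩ := hx
      have a1 : x.1.num.natDegree ≤ 0 := (le_max_left _ _).trans g1
      have a2 : x.1.denom.natDegree ≤ 0 := (le_max_right _ _).trans g1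
      have a3 : x.2.num.natDegree ≤ 0 := (le_max_left _ _).trans g2
      have a4 : x.2.denom.natDegree ≤ 0 := (le_max_right _ _).trans g2
      refine no_ord h6 a1 a2 a3 a4 x.1.denom_ne_zero x.2.denom_ne_zero (R := R) ?_
      rw [RatFunc.num_div_denom, RatFunc.num_div_denom]
      exact h
    rw [h2]
    simp only [card_empty, Nat.cast_zero]
    have := tl_nonneg 48 R
    positivity
  · have h2 := tail4 h6 n R hR
    have h3 : ((univ.filter fun ω : Qd k (n + 1) (n + 1) => ω.1.2.1 ≠ 0 ∧ ω.2.2.1 ≠ 0 ∧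
        Ord (ra ω) (rb ω) R).card : ℝ) ≤ tl 48 R * (Nat.card k : ℝ) ^ (4 * n + 4) := h2
    have h4 := card_Sn_half h6 hn
    have h5 := tl_nonneg 48 R
    refine le_of_mul_le_mul_right (a := ((Nat.card k : ℝ) - 1) ^ 2) ?_ hq1
    calc (((Sn k n).filter fun x => Ord x.1 x.2 R).card : ℝ) * ((Nat.card k : ℝ) - 1) ^ 2 ≤
          (((Ht k n ×ˢ Ht k n).filter (fun x => Ord x.1 x.2 R)).card : ℝ) *
            ((Nat.card k : ℝ) - 1) ^ 2 := mul_le_mul_of_nonneg_right h0 hq1.le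
      _ ≤ tl 48 R * (Nat.card k : ℝ) ^ (4 * n + 4) := h1.trans h3
      _ ≤ tl 48 R * (2 * (((Sn k n).card : ℝ) * ((Nat.card k : ℝ) - 1) ^ 2)) :=
          mul_le_mul_of_nonneg_left h4 h5
      _ = _ := by ring

end Pool.Agent.NH4.SB
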