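import Pool.Agent.NH4.SB.Box

/-!
Minimal equations of `y ^ 2 = x ^ 3 + (u / v) x + s / t`.
-/

set_option autoImplicit false
set_option linter.all false
set_option maxHeartbeats 1000000

open Polynomial Finset

namespace Pool.Agent.NH4.SB

open Pool.Agent.TH180.RT
open Pool.Agent.H341R2.Sharp (Irr mem_Irr)

section defs

variable {k : Type} [Field k]

open Classical in
/-- the exponent of the conductor at `P` -/
noncomputable def cP (A B P : k[X]) : ℕ :=
  if P ∣ 4 * A ^ 3 + 27 * B ^ 2 then (if P ∣ A then 2 else 1) else 0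

open Classical in
/-- the exponent of the conductor at infinity -/
noncomputable def cI (a b : k) : ℕ :=
  if 4 * a ^ 3 + 27 * b ^ 2 = 0 then (if a = 0 then 2 else 1) else 0

open Classical in
/-- the degree of the conductor -/
noncomputable def cdeg (d : ℕ) (A B : k[X]) : ℕ :=
  cI (A.coeff (4 * d)) (B.coeff (6 * d)) +
    ∑ᶠ P : k[X], if P.Monic ∧ Irreducible P then P.natDegree * cP A B P else 0

theorem cI_le (a b : k) : cI a b ≤ 2 := by
  unfold cI
  split_ifs <;> norm_num

theorem deg_sum_le {T : Finset k[X]} (hT : ∀ P ∈ T, P.Monic ∧ Irreducible P) (f : k[X] → ℕ)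
    {Q : k[X]} (hQ : Q ≠ 0) (h : ∀ P ∈ T, P ^ f P ∣ Q) :
    ∑ P ∈ T, P.natDegree * f P ≤ Q.natDegree := by
  have h1 : ∏ P ∈ T, P ^ f P ∣ Q := by
    refine Finset.prod_dvd_of_coprime ?_ h
    intro P hP P' hP' hne
    obtain ⟨p1, p2⟩ := hT P hP
    obtain ⟨q1, q2⟩ := hT P' hP'
    refine IsCoprime.pow (p2.coprime_iff_not_dvd.2 fun h => hne ?_)
    exact eq_of_monic_of_associated p1 q1 (p2.associated_of_dvd q2 h)
  have h2 := natDegree_le_of_dvd h1 hQ
  rw [natDegree_prod_of_monic _ _ fun P hP => (hT P hP).1.pow _] at h2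
  refine le_trans (le_of_eq ?_) h2
  refine sum_congr rfl fun P hP => ?_
  rw [natDegree_pow, mul_comm]

/-- the integral equation is a multiple of the minimal one -/
theorem exists_z {A B u v s t : k[X]} (hmin : ∀ P : k[X], Irreducible P → ¬ (P ^ 4 ∣ A ∧ P ^ 6 ∣ B))
    (hv : v ≠ 0) (ht : t ≠ 0) {w : RatFunc k} (hw : w ≠ 0)
    (hA : algebraMap k[X] (RatFunc k) A =
      w ^ 4 * (algebraMap k[X] (RatFunc k) u / algebraMap k[X] (RatFunc k) v))
    (hB : algebraMap k[X] (RatFunc k) B =
      w ^ 6 * (algebraMap k[X] (RatFunc k) s / algebraMap k[X] (RatFunc k) t)) :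
    ∃ z : k[X], z ≠ 0 ∧ fA u v s t = z ^ 4 * A ∧ fB u v s t = z ^ 6 * B := by
  have hinj : Function.Injective (algebraMap k[X] (RatFunc k)) := RatFunc.algebraMap_injective k
  have hv' : algebraMap k[X] (RatFunc k) v ≠ 0 := by
    rw [Ne, map_eq_zero_iff _ hinj]; exact hv
  have ht' : algebraMap k[X] (RatFunc k) t ≠ 0 := by
    rw [Ne, map_eq_zero_iff _ hinj]; exact ht
  set x : RatFunc k := algebraMap k[X] (RatFunc k) v * algebraMap k[X] (RatFunc k) t / w with hx
  have hx0 : x ≠ 0 := div_ne_zero (mul_ne_zero hv' ht') hw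
  have hd0 : algebraMap k[X] (RatFunc k) x.denom ≠ 0 := by
    rw [Ne, map_eq_zero_iff _ hinj]; exact x.denom_ne_zero
  have hxn : x = algebraMap k[X] (RatFunc k) x.num / algebraMap k[X] (RatFunc k) x.denom :=
    (RatFunc.num_div_denom x).symm
  have e1 : algebraMap k[X] (RatFunc k) (fA u v s t) = x ^ 4 * algebraMap k[X] (RatFunc k) A := by
    rw [hA, hx]
    unfold fA
    rw [map_mul, map_mul, map_pow, map_pow]
    field_simp
  have e2 : algebraMap k[X] (RatFunc k) (fB u v s t) = x ^ 6 * algebraMap k[X] (RatFunc k) B := by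
    rw [hB, hx]
    unfold fB
    rw [map_mul, map_mul, map_pow, map_pow]
    field_simp
  have f1 : x.denom ^ 4 * fA u v s t = x.num ^ 4 * A := by
    apply hinj
    rw [map_mul, map_mul, map_pow, map_pow, e1, hxn]
    have hd1 : algebraMap k[X] (RatFunc k) (algebraMap k[X] (RatFunc k) x.num /
      algebraMap k[X] (RatFunc k) x.denom).denom ≠ 0 := by
      rw [← hxn]; exact hd0
    rw [← hxn]
    nth_rewrite 2 [hxn]
    field_simp
  have f2 : x.denom ^ 6 * fB u v s t = x.num ^ 6 * B := by
    apply hinj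
    rw [map_mul, map_mul, map_pow, map_pow, e2]
    nth_rewrite 2 [hxn]
    field_simp
  have hcop : IsCoprime x.num x.denom := RatFunc.isCoprime_num_denom x
  have hden : x.denom = 1 := by
    by_contra hne
    have hmon := x.monic_denom
    have hnu : ¬ IsUnit x.denom := fun h => hne (hmon.eq_one_of_isUnit h)
    obtain ⟨P, hP, hPd⟩ := WfDvdMonoid.exists_irreducible_factor hnu x.denom_ne_zero
    have hPn : IsCoprime P x.num := hcop.symm.of_isCoprime_of_dvd_left hPd
    apply hmin P hP
    constructor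
    · have h1 : P ^ 4 ∣ x.num ^ 4 * A := by
        rw [← f1]
        exact (pow_dvd_pow_of_dvd hPd 4).mul_right _
      exact hPn.pow.dvd_of_dvd_mul_left h1
    · have h1 : P ^ 6 ∣ x.num ^ 6 * B := by
        rw [← f2]
        exact (pow_dvd_pow_of_dvd hPd 6).mul_right _
      exact hPn.pow.dvd_of_dvd_mul_left h1
  rw [hden, one_pow, one_mul] at f1 f2
  refine ⟨x.num, ?_, f1, f2⟩
  intro h
  apply hx0
  rw [hxn, h, map_zero, zero_div]

theorem fA_deg {n : ℕ} {u v s t : k[X]} (hu : u.natDegree ≤ n) (hv : v.natDegree ≤ n)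
    (ht : t.natDegree ≤ n) : (fA u v s t).natDegree ≤ 8 * n := by
  unfold fA
  refine natDegree_mul_le.trans ?_
  refine (Nat.add_le_add_right natDegree_mul_le _).trans ?_
  rw [natDegree_pow, natDegree_pow]
  omega

theorem fB_deg {n : ℕ} {u v s t : k[X]} (hs : s.natDegree ≤ n) (hv : v.natDegree ≤ n)
    (ht : t.natDegree ≤ n) : (fB u v s t).natDegree ≤ 12 * n := by
  unfold fB
  refine natDegree_mul_le.trans ?_
  refine (Nat.add_le_add_right natDegree_mul_le _).trans ?_
  rw [natDegree_pow, natDegree_pow]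
  omega

theorem z_deg {n : ℕ} {u v s t z A B : k[X]} (hu : u.natDegree ≤ n) (hv : v.natDegree ≤ n)
    (hs : s.natDegree ≤ n) (ht : t.natDegree ≤ n) (hz : z ≠ 0) (h1 : fA u v s t = z ^ 4 * A)
    (h2 : fB u v s t = z ^ 6 * B) (hAB : A ≠ 0 ∨ B ≠ 0) : z.natDegree ≤ 2 * n := by
  rcases hAB with h | h
  · have h3 := fA_deg (s := s) hu hv ht
    rw [h1, natDegree_mul (pow_ne_zero _ hz) h, natDegree_pow] at h3
    omega
  · have h3 := fB_deg (u := u) hs hv ht
    rw [h2, natDegree_mul (pow_ne_zero _ hz) h, natDegree_pow] at h3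
    omega

theorem disc_ne {A B : k[X]} (h : 4 * A ^ 3 + 27 * B ^ 2 ≠ 0) : A ≠ 0 ∨ B ≠ 0 := by
  by_contra hn
  push Not at hn
  apply h
  rw [hn.1, hn.2]
  ring

/-- the factor of the discriminant prime to the denominators -/
noncomputable def fD (u v s t : k[X]) : k[X] := 4 * u ^ 3 * t ^ 2 + 27 * s ^ 2 * v ^ 3

theorem disc_eq (u v s t : k[X]) : 4 * fA u v s t ^ 3 + 27 * fB u v s t ^ 2 =
    v ^ 9 * t ^ 10 * fD u v s t := by
  unfold fA fB fD
  ring

theorem fD_deg {n : ℕ} {u v s t : k[X]} (hu : u.natDegree ≤ n) (hv : v.natDegree ≤ n)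
    (hs : s.natDegree ≤ n) (ht : t.natDegree ≤ n) : (fD u v s t).natDegree ≤ 5 * n := by
  unfold fD
  have e4 : (4 : k[X]) = C 4 := by rw [map_ofNat]
  have e27 : (27 : k[X]) = C 27 := by rw [map_ofNat]
  refine natDegree_add_le_of_degree_le ?_ ?_
  · refine natDegree_mul_le.trans ?_
    refine (Nat.add_le_add_right natDegree_mul_le _).trans ?_
    rw [natDegree_pow, natDegree_pow, e4, natDegree_C]
    omega
  · refine natDegree_mul_le.trans ?_
    refine (Nat.add_le_add_right natDegree_mul_le _).trans ?_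
    rw [natDegree_pow, natDegree_pow, e27, natDegree_C]
    omega

end defs

variable {k : Type} [Field k] [Fintype k] [DecidableEq k]

/-- the degree of the conductor is at most `9 n + 2` -/
theorem cdeg_le (h6 : (6 : k) ≠ 0) {n d : ℕ} {u v s t z A B : k[X]} (hu : u.natDegree ≤ n) (hv : v.natDegree ≤ n)
    (hs : s.natDegree ≤ n) (ht : t.natDegree ≤ n) (hv0 : v ≠ 0) (ht0 : t ≠ 0) (hz : z ≠ 0)
    (h1 : fA u v s t = z ^ 4 * A) (h2 : fB u v s t = z ^ 6 * B)
    (hD : 4 * A ^ 3 + 27 * B ^ 2 ≠ 0) : cdeg d A B ≤ 9 * n + 2 := by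
  classical
  have hdz : v ^ 9 * t ^ 10 * fD u v s t = z ^ 12 * (4 * A ^ 3 + 27 * B ^ 2) := by
    rw [← disc_eq, h1, h2]
    ring
  have hfD : fD u v s t ≠ 0 := by
    intro h
    rw [h, mul_zero] at hdz
    exact mul_ne_zero (pow_ne_zero _ hz) hD hdz.symm
  unfold cdeg
  rw [finsum_eq_sum_of_support_subset (s := Irr k (4 * A ^ 3 + 27 * B ^ 2).natDegree)]
  · have h4 : ∑ P ∈ Irr k (4 * A ^ 3 + 27 * B ^ 2).natDegree, P.natDegree * cP A B P ≤
        (v ^ 2 * t ^ 2 * fD u v s t).natDegree := by
      refine deg_sum_le (fun P hP => ?_) _ (mul_ne_zero (mul_ne_zero (pow_ne_zero _ hv0)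
        (pow_ne_zero _ ht0)) hfD) ?_
      · rw [mem_Irr] at hP
        exact ⟨hP.1, hP.2.1⟩
      · intro P hP
        rw [mem_Irr] at hP
        have hpr := hP.2.1.prime
        unfold cP
        split_ifs with c1 c2
        · by_cases c3 : P ∣ v
          · exact ((pow_dvd_pow_of_dvd c3 2).mul_right _).mul_right _
          by_cases c4 : P ∣ t
          · exact ((pow_dvd_pow_of_dvd c4 2).mul_left _).mul_right _
          have c5 : P ∣ B := by
            have : P ∣ 27 * B ^ 2 := by
              have h5 : 27 * B ^ 2 = (4 * A ^ 3 + 27 * B ^ 2) - A * (4 * A ^ 2) := by ring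
              rw [h5]
              exact dvd_sub c1 (c2.mul_right _)
            have h27 : (27 : k) ≠ 0 := by
              have : (27 : k) = 3 ^ 3 := by norm_num
              rw [this]; exact pow_ne_zero _ (n3 h6)
            have e27 : (27 : k[X]) = C 27 := by rw [map_ofNat]
            have hu27 : IsUnit (27 : k[X]) := by
              rw [e27]
              exact isUnit_C.2 (isUnit_iff_ne_zero.2 h27)
            exact hpr.dvd_of_dvd_pow (hu27.dvd_mul_left.1 this)
          have c6 : P ∣ u := by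
            have h5 : P ∣ fA u v s t := by rw [h1]; exact c2.mul_left _
            unfold fA at h5
            rcases hpr.dvd_or_dvd h5 with h | h
            · rcases hpr.dvd_or_dvd h with h | h
              · exact h
              · exact absurd (hpr.dvd_of_dvd_pow h) c3
            · exact absurd (hpr.dvd_of_dvd_pow h) c4
          have c7 : P ∣ s := by
            have h5 : P ∣ fB u v s t := by rw [h2]; exact c5.mul_left _
            unfold fB at h5
            rcases hpr.dvd_or_dvd h5 with h | h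
            · rcases hpr.dvd_or_dvd h with h | h
              · exact h
              · exact absurd (hpr.dvd_of_dvd_pow h) c4
            · exact absurd (hpr.dvd_of_dvd_pow h) c3
          apply Dvd.dvd.mul_left
          unfold fD
          apply dvd_add
          · have h5 : 4 * u ^ 3 * t ^ 2 = u ^ 2 * (4 * u * t ^ 2) := by ring
            rw [h5]
            exact (pow_dvd_pow_of_dvd c6 2).mul_right _
          · have h5 : 27 * s ^ 2 * v ^ 3 = s ^ 2 * (27 * v ^ 3) := by ring
            rw [h5]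
            exact (pow_dvd_pow_of_dvd c7 2).mul_right _
        · rw [pow_one]
          by_cases c3 : P ∣ v
          · exact ((c3.trans (dvd_pow_self v two_ne_zero)).mul_right _).mul_right _
          by_cases c4 : P ∣ t
          · exact ((c4.trans (dvd_pow_self t two_ne_zero)).mul_left _).mul_right _
          apply Dvd.dvd.mul_left
          have h5 : P ∣ v ^ 9 * t ^ 10 * fD u v s t := by
            rw [hdz]
            exact c1.mul_left _
          rcases hpr.dvd_or_dvd h5 with h | h
          · rcases hpr.dvd_or_dvd h with h | h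
            · exact absurd (hpr.dvd_of_dvd_pow h) c3
            · exact absurd (hpr.dvd_of_dvd_pow h) c4
          · exact h
        · rw [pow_zero]
          exact one_dvd _
    have h5 : (v ^ 2 * t ^ 2 * fD u v s t).natDegree ≤ 9 * n := by
      have h6 := fD_deg hu hv hs ht
      refine natDegree_mul_le.trans ?_
      refine (Nat.add_le_add_right natDegree_mul_le _).trans ?_
      rw [natDegree_pow, natDegree_pow]
      omega
    have h7 := cI_le (A.coeff (4 * d)) (B.coeff (6 * d))
    have h8 : (∑ P ∈ Irr k (4 * A ^ 3 + 27 * B ^ 2).natDegree,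
        if P.Monic ∧ Irreducible P then P.natDegree * cP A B P else 0) =
        ∑ P ∈ Irr k (4 * A ^ 3 + 27 * B ^ 2).natDegree, P.natDegree * cP A B P := by
      refine sum_congr rfl fun P hP => ?_
      rw [mem_Irr] at hP
      exact if_pos ⟨hP.1, hP.2.1⟩
    have h9 := h4.trans h5
    have h10 : cI (A.coeff (4 * d)) (B.coeff (6 * d)) +
          (∑ P ∈ Irr k (4 * A ^ 3 + 27 * B ^ 2).natDegree, P.natDegree * cP A B P) ≤ 9 * n + 2 := by
      generalize (∑ P ∈ Irr k (4 * A ^ 3 + 27 * B ^ 2).natDegree, P.natDegree * cP A B P) = W at h9 ⊢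
      generalize cI (A.coeff (4 * d)) (B.coeff (6 * d)) = W' at h7 ⊢
      omega
    rw [← h8] at h10
    convert h10
  · intro P hP
    rw [Function.mem_support] at hP
    by_contra h
    apply hP
    by_cases c : P.Monic ∧ Irreducible P
    · rw [if_pos c]
      have c1 : ¬ P ∣ 4 * A ^ 3 + 27 * B ^ 2 := by
        intro hd
        apply h
        rw [mem_coe, mem_Irr]
        exact ⟨c.1, c.2, natDegree_le_of_dvd hd hD⟩
      unfold cP
      rw [if_neg c1, mul_zero]
    · rw [if_neg c]

end Pool.Agent.NH4.SB
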