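import Pool.Agent.NH4.SB.Det

/-!
The number of pairs of large order of vanishing.
-/

set_option autoImplicit false
set_option linter.all false
set_option maxHeartbeats 1000000

open Polynomial Finset

namespace Pool.Agent.NH4.SB

open Pool.Agent.TH180.RT
open Pool.Agent.H341R2.Sharp (Irr mem_Irr)

open Classical in
/-- the normalised eigenvalues of Frobenius, at least `R` of which are one -/
def Ord {k : Type} [Field k] (a b : RatFunc k) (R : ℕ) : Prop :=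
  ∃ (d : ℕ) (A B : k[X]) (w : RatFunc k), w ≠ 0 ∧ algebraMap k[X] (RatFunc k) A = w ^ 4 * a ∧
    algebraMap k[X] (RatFunc k) B = w ^ 6 * b ∧ IsMin d A B ∧
    ∃ (N : ℕ) (β : Fin N → ℂ), N + 4 = cdeg d A B ∧ (∀ i, ‖β i‖ = 1) ∧
    (∀ m : ℕ, 0 < m → (psum d A B m : ℂ) = -((Nat.card k : ℂ) ^ m * ∑ i, β i ^ m)) ∧
    R ≤ (univ.filter fun i => β i = 1).card

variable {k : Type} [Field k] [Fintype k] [DecidableEq k]

theorem numeric4 {R m : ℕ} (hm : 0 < m) (hR : 48 * m ≤ R) :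
    2 * ((2 * m).factorial : ℝ) * (Real.exp 1 * 8 / (2 * m)) ^ m ≤
      (44 / (R : ℝ)) ^ m * (5 / 24 * (R : ℝ)) ^ (2 * m) := by
  have hm' : (1 : ℝ) ≤ m := by exact_mod_cast hm
  have hm0 : (0 : ℝ) < m := by linarith
  have hR' : 48 * (m : ℝ) ≤ R := by exact_mod_cast hR
  have hR0 : (0 : ℝ) < R := by linarith
  have h1 : ((2 * m).factorial : ℝ) ≤ (2 * m : ℝ) ^ (2 * m) := by
    exact_mod_cast Nat.factorial_le_pow (2 * m)
  have he := Real.exp_one_lt_d9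
  have he0 := Real.exp_pos 1
  have h2 : (2 : ℝ) ≤ 2 ^ m := by
    calc (2 : ℝ) = 2 ^ 1 := by norm_num
      _ ≤ 2 ^ m := pow_le_pow_right₀ (by norm_num) hm
  calc 2 * ((2 * m).factorial : ℝ) * (Real.exp 1 * 8 / (2 * m)) ^ m ≤
        2 ^ m * (2 * m : ℝ) ^ (2 * m) * (Real.exp 1 * 8 / (2 * m)) ^ m := by
        gcongr
    _ = (32 * Real.exp 1 * m) ^ m := by
        rw [pow_mul, ← mul_pow, ← mul_pow]
        congr 1
        field_simp
        ring
    _ ≤ (44 / (R : ℝ) * (5 / 24 * (R : ℝ)) ^ 2) ^ m := by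
        apply pow_le_pow_left₀ (by positivity)
        have e : 44 / (R : ℝ) * (5 / 24 * (R : ℝ)) ^ 2 = 275 / 144 * R := by
          field_simp
          norm_num
        rw [e]
        nlinarith
    _ = _ := by rw [mul_pow, ← pow_mul]

/-- the bound for a pair, in terms of quadruples -/
theorem ord_bound (h6 : (6 : k) ≠ 0) {Y : ℕ} (hY : 0 < Y) {n R : ℕ} {u v s t : k[X]}
    (hu : u.natDegree ≤ n) (hv : v.natDegree ≤ n) (hs : s.natDegree ≤ n) (ht : t.natDegree ≤ n)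
    (hv0 : v ≠ 0) (ht0 : t ≠ 0)
    (h : Ord (algebraMap k[X] (RatFunc k) u / algebraMap k[X] (RatFunc k) v)
      (algebraMap k[X] (RatFunc k) s / algebraMap k[X] (RatFunc k) t) R) :
    (R : ℝ) ≤ 13 * n / Y + 12 + ∑ P ∈ Irr k (Y - 1), wt k Y P * trP (fA u v s t) (fB u v s t) P := by
  obtain ⟨d, A, B, w, hw, hA, hB, hmin, N, β, hN, hβ, hps, hc⟩ := h
  obtain ⟨z, hz, h1, h2⟩ := exists_z hmin.2.2.2.2 hv0 ht0 hw hA hB
  have h3 := det4 h6 hY hu hv hs ht hv0 ht0 hz h1 h2 hmin.2.2.2.1 hN hβ hps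
  have h4 : (R : ℝ) ≤ ((univ.filter fun i => β i = 1).card : ℝ) := by exact_mod_cast hc
  linarith

theorem no_ord (h6 : (6 : k) ≠ 0) {R : ℕ} {u v s t : k[X]}
    (hu : u.natDegree ≤ 0) (hv : v.natDegree ≤ 0) (hs : s.natDegree ≤ 0) (ht : t.natDegree ≤ 0)
    (hv0 : v ≠ 0) (ht0 : t ≠ 0)
    (h : Ord (algebraMap k[X] (RatFunc k) u / algebraMap k[X] (RatFunc k) v)
      (algebraMap k[X] (RatFunc k) s / algebraMap k[X] (RatFunc k) t) R) : False := by
  obtain ⟨d, A, B, w, hw, hA, hB, hmin, N, β, hN, hβ, hps, hc⟩ := h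
  obtain ⟨z, hz, h1, h2⟩ := exists_z hmin.2.2.2.2 hv0 ht0 hw hA hB
  have h3 := cdeg_le h6 (d := d) hu hv hs ht hv0 ht0 hz h1 h2 hmin.2.2.2.1
  omega

/-- the ratio -/
noncomputable def ra {D₁ D₂ : ℕ} (ω : Qd k D₁ D₂) : RatFunc k :=
  algebraMap k[X] (RatFunc k) ω.1.1.1 / algebraMap k[X] (RatFunc k) ω.1.2.1

/-- the ratio -/
noncomputable def rb {D₁ D₂ : ℕ} (ω : Qd k D₁ D₂) : RatFunc k :=
  algebraMap k[X] (RatFunc k) ω.2.1.1 / algebraMap k[X] (RatFunc k) ω.2.2.1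

open Classical in
/-- the exceptional quadruples -/
noncomputable def bad (k : Type) [Field k] [Fintype k] [DecidableEq k] (n R : ℕ) :
    Finset (Qd k (n + 1) (n + 1)) :=
  univ.filter fun ω => ω.1.2.1 ≠ 0 ∧ ω.2.2.1 ≠ 0 ∧ Ord (ra ω) (rb ω) R

open Classical in
/-- **the tail** -/
theorem tail4 (h6 : (6 : k) ≠ 0) (n R : ℕ) (hR : 0 < R) :
    ((bad k n R).card : ℝ) ≤ tl 48 R * (Nat.card k : ℝ) ^ (4 * n + 4) := by
  have hq := q_pos (k := k)
  have hu : (Fintype.card (Qd k (n + 1) (n + 1)) : ℝ) = (Nat.card k : ℝ) ^ (4 * n + 4) := by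
    rw [card_Qd, ← Nat.card_eq_fintype_card]
    congr 1
    ring
  have hdeg : ∀ ω : Qd k (n + 1) (n + 1), ω.1.1.1.natDegree ≤ n ∧ ω.1.2.1.natDegree ≤ n ∧
      ω.2.1.1.natDegree ≤ n ∧ ω.2.2.1.natDegree ≤ n := fun ω =>
    ⟨natDegree_of_mem ω.1.1.2, natDegree_of_mem ω.1.2.2, natDegree_of_mem ω.2.1.2,
      natDegree_of_mem ω.2.2.2⟩
  by_cases hsmall : R < 48
  · have h1 : tl 48 R = 1 := by
      unfold tl
      rw [Nat.div_eq_of_lt hsmall, pow_zero]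
    rw [h1, one_mul, ← hu]
    exact_mod_cast card_le_univ _
  push Not at hsmall
  have hR' : (48 : ℝ) ≤ R := by exact_mod_cast hsmall
  rcases Nat.eq_zero_or_pos n with hn | hn
  · subst hn
    have h0 : bad k 0 R = ∅ := by
      unfold bad
      rw [filter_eq_empty_iff]
      rintro ω - ⟨g1, g2, g3⟩
      obtain ⟨d1, d2, d3, d4⟩ := hdeg ω
      exact no_ord h6 d1 d2 d3 d4 g1 g2 g3
    rw [h0]
    simp only [card_empty, Nat.cast_zero]
    exact mul_nonneg (tl_nonneg _ _) (by positivity)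
  set m : ℕ := R / 48 with hm
  have hm1 : 48 * m ≤ R := Nat.mul_div_le R 48
  have hm0 : 0 < m := Nat.div_pos (by omega) (by norm_num)
  set Y : ℕ := (24 * n + R - 1) / R with hY
  have hY0 : 0 < Y := Nat.div_pos (by omega) hR
  have hY1 : 24 * n ≤ Y * R := by
    have h1 : 24 * n + R - 1 < (Y + 1) * R := by
      rw [hY, mul_comm ((24 * n + R - 1) / R + 1) R]
      exact Nat.lt_mul_div_succ _ hR
    have e : (Y + 1) * R = Y * R + R := by ring
    rw [e] at h1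
    omega
  have hY2 : (Y - 1) * R ≤ 24 * n := by
    have h1 : Y * R ≤ 24 * n + R - 1 := Nat.div_mul_le_self _ _
    rw [Nat.sub_mul, one_mul]
    omega
  have hY3 : 2 * m * (Y - 1) ≤ n + 1 := by
    have h1 : 24 * (2 * m * (Y - 1)) ≤ 24 * n := by
      calc 24 * (2 * m * (Y - 1)) = (Y - 1) * (48 * m) := by ring
        _ ≤ (Y - 1) * R := by gcongr
        _ ≤ 24 * n := hY2
    omega
  have hmom := moment4 h6 (Irr k (Y - 1)) (Y := Y - 1) (m := m) (D₁ := n + 1)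
    (D₂ := n + 1) (fun P hP => mem_Irr.1 hP) hm0 hY3 hY3 (wt k Y)
    (V := 8) (by norm_num) (fun A B => var_bound h6 hY0 A B)
  have hYR : (0 : ℝ) < Y := by exact_mod_cast hY0
  have hNY : 13 * (n : ℝ) / Y ≤ 13 / 24 * R := by
    rw [div_le_iff₀ hYR]
    have h1 : 24 * (n : ℝ) ≤ Y * R := by exact_mod_cast hY1
    nlinarith
  have hmark : ((bad k n R).card : ℝ) * (5 / 24 * (R : ℝ)) ^ (2 * m) ≤
      ∑ ω : Qd k (n + 1) (n + 1),
        (∑ P ∈ Irr k (Y - 1), wt k Y P * trP (qA ω) (qB ω) P) ^ (2 * m) := by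
    rw [← nsmul_eq_mul, ← sum_const]
    refine (sum_le_sum fun ω hω => ?_).trans (sum_le_sum_of_subset_of_nonneg
      (subset_univ _) fun ω _ _ => ?_)
    · unfold bad at hω
      rw [mem_filter] at hω
      obtain ⟨-, g1, g2, g3⟩ := hω
      obtain ⟨d1, d2, d3, d4⟩ := hdeg ω
      have h1 := ord_bound h6 hY0 d1 d2 d3 d4 g1 g2 g3
      apply pow_le_pow_left₀ (by positivity)
      show _ ≤ ∑ P ∈ Irr k (Y - 1), wt k Y P * (trP (fA ω.1.1.1 ω.1.2.1 ω.2.1.1 ω.2.2.1)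
        (fB ω.1.1.1 ω.1.2.1 ω.2.1.1 ω.2.2.1) P : ℝ)
      linarith
    · rw [pow_mul]
      positivity
  have hnum := numeric4 hm0 hm1
  have e1 : 2 * (n + 1) + 2 * (n + 1) = 4 * n + 4 := by ring
  rw [e1, ← Nat.card_eq_fintype_card] at hmom
  have h1 := hmark.trans hmom
  have h2 : ((bad k n R).card : ℝ) * (5 / 24 * (R : ℝ)) ^ (2 * m) ≤
      (tl 48 R * (Nat.card k : ℝ) ^ (4 * n + 4)) * (5 / 24 * (R : ℝ)) ^ (2 * m) := by
    refine h1.trans ?_
    unfold tl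
    rw [← hm]
    calc (Nat.card k : ℝ) ^ (4 * n + 4) *
          (2 * ((2 * m).factorial : ℝ) * (Real.exp 1 * 8 / (2 * m)) ^ m) ≤
          (Nat.card k : ℝ) ^ (4 * n + 4) *
            ((44 / (R : ℝ)) ^ m * (5 / 24 * (R : ℝ)) ^ (2 * m)) :=
          mul_le_mul_of_nonneg_left hnum (by positivity)
      _ = _ := by ring
  exact le_of_mul_le_mul_right h2 (by positivity)

end Pool.Agent.NH4.SB
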